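import Mathlib
import Pool.Agent.V11122.TreeDec
import Pool.Agent.V11122.Rooted

set_option autoImplicit false

/-! Fractionally tree-α-fragile classes have bounded independence degeneracy. -/

namespace Pool.Agent.Results.MP_1b53c2_co.FragileIdeg

open SimpleGraph Pool.Agent.V11122

/-- The tree-independence number: the least `k` such that `G` has a tree decomposition
(`Pool.Agent.V11122.IsTreeDecomp`) in which every independent set contained in a bag has at most
`k` vertices. -/
noncomputable def treeAlpha {V : Type} (G : SimpleGraph V) : ℕ :=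
  sInf {k | ∃ (n : ℕ) (T : SimpleGraph (Fin n)) (bag : Fin n → Set V), IsTreeDecomp G T bag ∧
    ∀ t, ∀ S : Finset V, (S : Set V) ⊆ bag t → G.IsIndepSet (S : Set V) → S.card ≤ k}

/-- The family `C 0, …, C (m-1)` is a `β`-general cover of `V`: every vertex lies in at least
`β m` of the sets. -/
def IsGeneralCover {V : Type} {m : ℕ} (β : ℝ) (C : Fin m → Set V) : Prop :=
  ∀ v, β * m ≤ ({i | v ∈ C i}.ncard : ℝ)

/-- The class `𝒢` is fractionally tree-α-fragile with the function `f`: for every `r ≥ 1` every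
graph of the class has a (nonempty) `(1 - 1/r)`-general cover of tree-α-width at most `f r`. -/
def IsFragileWith (𝒢 : ∀ V : Type, SimpleGraph V → Prop) (f : ℕ → ℕ) : Prop :=
  ∀ r : ℕ, 1 ≤ r → ∀ (V : Type) [Finite V] (G : SimpleGraph V), 𝒢 V G →
    ∃ (m : ℕ) (C : Fin m → Set V), 1 ≤ m ∧ IsGeneralCover (1 - 1 / (r : ℝ)) C ∧
      ∀ i, treeAlpha (G.induce (C i)) ≤ f r

/-- The independence degeneracy of `G` is at most `k`: every nonnull induced subgraph `G[S]` has a
vertex `v` such that every independent set contained in its neighbourhood has at most `k`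
vertices. -/
def IdegLE {V : Type} (G : SimpleGraph V) (k : ℕ) : Prop :=
  ∀ S : Set V, S.Nonempty → ∃ v ∈ S, ∀ I : Finset V,
    (∀ u ∈ I, u ∈ S ∧ G.Adj v u) → G.IsIndepSet (I : Set V) → I.card ≤ k

/-- Elimination structures on the vertices of `C`. -/
structure Elim {V : Type} (G : SimpleGraph V) (C : Set V) (k : ℕ) (B : V → Set V) (d : V → ℕ) :
    Prop where
  self : ∀ w ∈ C, w ∈ B w
  sub : ∀ w ∈ C, B w ⊆ C
  mono : ∀ w ∈ C, ∀ u ∈ B w, d u ≤ d w
  clos : ∀ w ∈ C, ∀ x ∈ B w, ∀ u ∈ B w, d x ≤ d u → x ∈ B u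
  adj : ∀ u ∈ C, ∀ w ∈ C, G.Adj u w → d u ≤ d w → u ∈ B w
  al : ∀ w ∈ C, ∀ I : Finset V, (I : Set V) ⊆ B w → G.IsIndepSet (I : Set V) → I.card ≤ k

theorem exists_elim {V : Type} [Finite V] (G : SimpleGraph V) (C : Set V) (k : ℕ)
    (h : treeAlpha (G.induce C) ≤ k) : ∃ B d, Elim G C k B d := by
  classical
  have hne : {k | ∃ (n : ℕ) (T : SimpleGraph (Fin n)) (bag : Fin n → Set C),
      IsTreeDecomp (G.induce C) T bag ∧ ∀ t, ∀ S : Finset C, (S : Set C) ⊆ bag t →
        (G.induce C).IsIndepSet (S : Set C) → S.card ≤ k}.Nonempty := by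
    haveI : Fintype C := Fintype.ofFinite C
    refine ⟨Fintype.card C, 1, ⊥, fun _ => Set.univ, ⟨?_, ?_, ?_, ?_⟩, ?_⟩
    · exact SimpleGraph.IsTree.of_subsingleton
    · intro v; exact ⟨0, trivial⟩
    · intro u v _; exact ⟨0, trivial, trivial⟩
    · intro v ⟨s, hs⟩ ⟨t, ht⟩
      have : (⟨s, hs⟩ : {t : Fin 1 | v ∈ (Set.univ : Set C)}) = ⟨t, ht⟩ :=
        Subtype.ext (Subsingleton.elim _ _)
      rw [this]
    · intro t S _ _
      exact Finset.card_le_univ S
  obtain ⟨n, T, bag, hT, hal⟩ := Nat.sInf_mem hne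
  have hal' : ∀ t, ∀ S : Finset C, (S : Set C) ⊆ bag t →
        (G.induce C).IsIndepSet (S : Set C) → S.card ≤ k := by
    intro t S h1 h2
    exact (hal t S h1 h2).trans h
  obtain ⟨r⟩ : Nonempty (Fin n) := hT.isTree.1.nonempty
  obtain ⟨par, depth, hpar, htop⟩ := exists_rooted hT r
  choose top h1 h2 h3 using htop
  have chain : ∀ (m : ℕ) (t : Fin n) (x u : C), depth t = m → x ∈ bag t → u ∈ bag t →
      depth (top x) ≤ depth (top u) → x ∈ bag (top u) := by
    intro m
    induction m using Nat.strong_induction_on with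
    | _ m ih =>
      intro t x u htm hx hu hd
      by_cases htu : t = top u
      · rw [← htu]; exact hx
      · obtain ⟨h4, h5⟩ := h3 u t hu htu
        have h6 := (hpar t h4).1
        have h7 := h2 u _ h5
        have htx : t ≠ top x := by
          intro h
          rw [h] at h6
          rw [h] at h7
          omega
        obtain ⟨h8, h9⟩ := h3 x t hx htx
        exact ih _ (by omega) (par t) x u rfl h9 h5 hd
  refine ⟨fun v => if h : v ∈ C then Subtype.val '' bag (top ⟨v, h⟩) else ∅,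
    fun v => if h : v ∈ C then depth (top ⟨v, h⟩) else 0, ?_, ?_, ?_, ?_, ?_, ?_⟩
  · intro w hw
    simp only [dif_pos hw]
    exact ⟨⟨w, hw⟩, h1 _, rfl⟩
  · intro w hw
    simp only [dif_pos hw]
    rintro _ ⟨x, -, rfl⟩
    exact x.2
  · intro w hw u hu
    simp only [dif_pos hw] at hu ⊢
    obtain ⟨x, hx, rfl⟩ := hu
    rw [dif_pos x.2]
    exact h2 x _ hx
  · intro w hw x hx u hu hd
    simp only [dif_pos hw] at hx hu
    obtain ⟨x, hx, rfl⟩ := hx
    obtain ⟨u, hu, rfl⟩ := hu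
    simp only [dif_pos x.2, dif_pos u.2] at hd ⊢
    exact ⟨x, chain _ _ x u rfl hx hu hd, rfl⟩
  · intro u hu w hw hadj hd
    simp only [dif_pos hu, dif_pos hw] at hd ⊢
    obtain ⟨t, ht1, ht2⟩ := hT.edge ⟨u, hu⟩ ⟨w, hw⟩ hadj
    exact ⟨⟨u, hu⟩, chain _ t _ _ rfl ht1 ht2 hd, rfl⟩
  · intro w hw I hI hind
    simp only [dif_pos hw] at hI
    have hIC : ∀ x ∈ I, x ∈ C := by
      intro x hx
      obtain ⟨y, -, rfl⟩ := hI hx
      exact y.2
    have := hal' (top ⟨w, hw⟩) (I.subtype (· ∈ C)) ?_ ?_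
    · rw [Finset.card_subtype, Finset.filter_true_of_mem hIC] at this
      exact this
    · intro x hx
      rw [Finset.mem_coe, Finset.mem_subtype] at hx
      obtain ⟨y, hy, hyx⟩ := hI hx
      rwa [← Subtype.ext hyx]
    · intro x hx y hy hxy
      rw [Finset.mem_coe, Finset.mem_subtype] at hx hy
      exact hind hx hy (fun h => hxy (Subtype.ext h))

section
variable {V : Type} {G : SimpleGraph V} {C : Set V} {k : ℕ} {B : V → Set V} {d : V → ℕ}

/-- Two vertices touch if they lie together in some set `B t`. -/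
def Touch (C : Set V) (B : V → Set V) (u w : V) : Prop := ∃ t ∈ C, u ∈ B t ∧ w ∈ B t

theorem Touch.symm' {u w : V} (h : Touch C B u w) : Touch C B w u := by
  obtain ⟨t, h1, h2, h3⟩ := h
  exact ⟨t, h1, h3, h2⟩

theorem Elim.kf (hE : Elim G C k B d) {u w : V} (h : Touch C B u w) (hd : d u ≤ d w) : u ∈ B w := by
  obtain ⟨t, h1, h2, h3⟩ := h
  exact hE.clos t h1 u h2 w h3 hd

theorem Elim.touch_of_mem (hE : Elim G C k B d) {u w : V} (hw : w ∈ C) (h : u ∈ B w) :
    Touch C B u w := ⟨w, hw, h, hE.self w hw⟩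

theorem Elim.touch_of_adj (hE : Elim G C k B d) {u w : V} (hu : u ∈ C) (hw : w ∈ C)
    (h : G.Adj u w) : Touch C B u w := by
  rcases le_total (d u) (d w) with hd | hd
  · exact hE.touch_of_mem hw (hE.adj u hu w hw h hd)
  · exact (hE.touch_of_mem hu (hE.adj w hw u hu h.symm hd)).symm'

/-- An independent subset of `C` is `k`-colourable with respect to touching. -/
theorem Elim.color (hE : Elim G C k B d) :
    ∀ (n : ℕ) (A : Finset V), A.card = n → (A : Set V) ⊆ C → G.IsIndepSet (A : Set V) →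
      ∃ c : V → ℕ, (∀ u ∈ A, c u < k) ∧
        ∀ u ∈ A, ∀ w ∈ A, u ≠ w → Touch C B u w → c u ≠ c w := by
  classical
  intro n
  induction n with
  | zero =>
    intro A hA _ _
    rw [Finset.card_eq_zero] at hA
    subst hA
    exact ⟨fun _ => 0, by simp, by simp⟩
  | succ n ih =>
    intro A hA hAC hind
    have hne : A.Nonempty := by rw [← Finset.card_pos]; omega
    obtain ⟨w, hwA, hwmax⟩ := A.exists_max_image d hne
    obtain ⟨c, hc1, hc2⟩ := ih (A.erase w) (by rw [Finset.card_erase_of_mem hwA]; omega)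
      (fun x hx => hAC (Finset.mem_of_mem_erase hx))
      (fun x hx y hy hxy => hind (Finset.mem_of_mem_erase hx) (Finset.mem_of_mem_erase hy) hxy)
    have hwC : w ∈ C := hAC hwA
    set N := (A.erase w).filter (fun u => u ∈ B w) with hN
    have hNcard : N.card + 1 ≤ k := by
      have h1 : w ∉ N := by simp [hN]
      rw [← Finset.card_insert_of_notMem h1]
      apply hE.al w hwC
      · intro x hx
        rw [Finset.coe_insert, Set.mem_insert_iff] at hx
        rcases hx with rfl | hx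
        · exact hE.self _ hwC
        · exact (Finset.mem_filter.1 hx).2
      · intro x hx y hy hxy
        have hsub : ∀ z ∈ ((insert w N : Finset V) : Set V), z ∈ A := by
          intro z hz
          rw [Finset.coe_insert, Set.mem_insert_iff] at hz
          rcases hz with rfl | hz
          · exact hwA
          · exact Finset.mem_of_mem_erase (Finset.mem_filter.1 hz).1
        exact hind (hsub x hx) (hsub y hy) hxy
    obtain ⟨j, hj1, hj2⟩ : ∃ j ∈ Finset.range k, j ∉ N.image c := by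
      apply Finset.exists_mem_notMem_of_card_lt_card
      rw [Finset.card_range]
      have := Finset.card_image_le (s := N) (f := c)
      omega
    refine ⟨Function.update c w j, ?_, ?_⟩
    · intro u hu
      by_cases h : u = w
      · rw [h, Function.update_self]; exact Finset.mem_range.1 hj1
      · rw [Function.update_of_ne h]
        exact hc1 u (Finset.mem_erase.2 ⟨h, hu⟩)
    · have key : ∀ u ∈ A, u ≠ w → Touch C B u w → c u ≠ j := by
        intro u hu huw ht h
        apply hj2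
        rw [Finset.mem_image]
        refine ⟨u, ?_, h⟩
        rw [hN, Finset.mem_filter]
        exact ⟨Finset.mem_erase.2 ⟨huw, hu⟩, hE.kf ht (hwmax u hu)⟩
      intro u hu v hv huv ht
      by_cases h1 : u = w
      · have h2 : v ≠ w := fun h => huv (h1.trans h.symm)
        rw [h1, Function.update_self, Function.update_of_ne h2]
        rw [h1] at ht
        exact (key v hv h2 ht.symm').symm
      · by_cases h2 : v = w
        · rw [h2, Function.update_self, Function.update_of_ne h1]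
          rw [h2] at ht
          exact key u hu h1 ht
        · rw [Function.update_of_ne h1, Function.update_of_ne h2]
          exact hc2 u (Finset.mem_erase.2 ⟨h1, hu⟩) v (Finset.mem_erase.2 ⟨h2, hv⟩) huv ht

/-- A heavy non-touching subset. -/
theorem Elim.select (hE : Elim G C k B d) (A : Finset V) (hAC : (A : Set V) ⊆ C)
    (hind : G.IsIndepSet (A : Set V)) (wt : V → ℕ) :
    ∃ A1 ⊆ A, (∀ u ∈ A1, ∀ w ∈ A1, u ≠ w → ¬ Touch C B u w) ∧
      ∑ u ∈ A, wt u ≤ k * ∑ u ∈ A1, wt u := by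
  classical
  obtain ⟨c, hc1, hc2⟩ := hE.color A.card A rfl hAC hind
  by_cases hk : k = 0
  · subst hk
    refine ⟨A, le_refl _, ?_, ?_⟩
    · intro u hu; exact absurd (hc1 u hu) (by omega)
    · have : A = ∅ := by
        rw [Finset.eq_empty_iff_forall_notMem]
        intro u hu
        exact absurd (hc1 u hu) (by omega)
      simp [this]
  · have hsum : ∑ j ∈ Finset.range k, ∑ u ∈ A.filter (fun u => c u = j), wt u = ∑ u ∈ A, wt u :=
      Finset.sum_fiberwise_of_maps_to (fun u hu => Finset.mem_range.2 (hc1 u hu)) _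
    obtain ⟨j, hj, hle⟩ : ∃ j ∈ Finset.range k,
        ∑ u ∈ A, wt u ≤ k * ∑ u ∈ A.filter (fun u => c u = j), wt u := by
      apply Finset.exists_le_of_sum_le
      · exact ⟨0, Finset.mem_range.2 (Nat.pos_of_ne_zero hk)⟩
      · rw [Finset.sum_const, Finset.card_range, smul_eq_mul, ← Finset.mul_sum, hsum]
    refine ⟨A.filter (fun u => c u = j), Finset.filter_subset _ _, ?_, hle⟩
    intro u hu w hw huw ht
    rw [Finset.mem_filter] at hu hw
    exact hc2 u hu.1 w hw.1 huw ht (hu.2.trans hw.2.symm)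

/-- The counting lemma. -/
theorem Elim.count (hE : Elim G C k B d) {J : Finset V} (hJC : (J : Set V) ⊆ C)
    (hJ : ∀ u ∈ J, ∀ w ∈ J, u ≠ w → ¬ Touch C B u w) (I : V → Finset V)
    (hI : ∀ v ∈ J, ∀ u ∈ I v, u ∈ C ∧ G.Adj v u)
    (hIt : ∀ v ∈ J, ∀ u ∈ I v, ∀ w ∈ I v, u ≠ w → ¬ Touch C B u w) (a : ℕ)
    (ha : ∀ S : Finset V, (∀ u ∈ S, ∃ v ∈ J, u ∈ I v) → G.IsIndepSet (S : Set V) → S.card ≤ a) :
    ∑ v ∈ J, (I v).card ≤ a + 2 * J.card := by
  classical
  set U : V → Finset V := fun v => (I v).filter (fun u => u ∉ B v) with hU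
  have h1 : ∀ v ∈ J, (I v).card ≤ (U v).card + 1 := by
    intro v hv
    have e := Finset.card_filter_add_card_filter_not (s := I v) (fun u => u ∉ B v)
    have h2 : ((I v).filter (fun u => ¬ u ∉ B v)).card ≤ 1 := by
      rw [Finset.card_le_one]
      intro x hx y hy
      rw [Finset.mem_filter, not_not] at hx hy
      by_contra hne
      exact hIt v hv x hx.1 y hy.1 hne ⟨v, hJC hv, hx.2, hy.2⟩
    show (I v).card ≤ ((I v).filter (fun u => u ∉ B v)).card + 1
    omega
  -- facts on members of `U v`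
  have hfact : ∀ v ∈ J, ∀ u ∈ U v, u ∈ C ∧ v ∈ B u ∧ d v < d u := by
    intro v hv u hu
    rw [hU] at hu
    simp only [Finset.mem_filter] at hu
    obtain ⟨huC, hadj⟩ := hI v hv u hu.1
    have ht := hE.touch_of_adj (hJC hv) huC hadj
    have hlt : d v < d u := by
      by_contra hcon
      exact hu.2 (hE.kf ht.symm' (by omega))
    exact ⟨huC, hE.kf ht hlt.le, hlt⟩
  have hdisj : ∀ v ∈ J, ∀ v' ∈ J, v ≠ v' → Disjoint (U v) (U v') := by
    intro v hv v' hv' hne
    rw [Finset.disjoint_left]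
    intro u hu hu'
    exact hJ v hv v' hv' hne ⟨u, (hfact v hv u hu).1, (hfact v hv u hu).2.1,
      (hfact v' hv' u hu').2.1⟩
  set UU := J.biUnion U with hUU
  have hcard : UU.card = ∑ v ∈ J, (U v).card := Finset.card_biUnion hdisj
  have hmem : ∀ u ∈ UU, ∃ v ∈ J, u ∈ U v := fun u hu => Finset.mem_biUnion.1 hu
  have hsplit := Finset.card_filter_add_card_filter_not (s := UU) (fun u => ∃ v' ∈ J, u ∈ B v')
  have hUI : ∀ v u, u ∈ U v → u ∈ I v := fun v u hu => (Finset.mem_filter.1 hu).1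
  -- terminal vertices
  have hT : (UU.filter (fun u => ¬ ∃ v' ∈ J, u ∈ B v')).card ≤ a := by
    apply ha
    · intro u hu
      obtain ⟨v, hv, huv⟩ := hmem u (Finset.mem_filter.1 hu).1
      exact ⟨v, hv, hUI v u huv⟩
    · have main : ∀ u u', u ∈ UU → u' ∈ UU → (¬ ∃ v' ∈ J, u ∈ B v') → u ≠ u' →
          Touch C B u u' → d u ≤ d u' → False := by
        intro u u' hu hu' hnu hne ht hd
        obtain ⟨v, hv, huv⟩ := hmem u hu
        obtain ⟨v', hv', huv'⟩ := hmem u' hu'
        obtain ⟨huC, hvB, -⟩ := hfact v hv u huv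
        obtain ⟨huC', hvB', -⟩ := hfact v' hv' u' huv'
        have e1 := hE.kf ht hd
        have e2 : Touch C B u v' := ⟨u', huC', e1, hvB'⟩
        rcases le_or_gt (d u) (d v') with h | h
        · exact hnu ⟨v', hv', hE.kf e2 h⟩
        · have e3 := hE.kf e2.symm' h.le
          by_cases hvv : v = v'
          · subst hvv
            exact hIt v hv u (hUI v u huv) u' (hUI v u' huv') hne ht
          · exact hJ v hv v' hv' hvv ⟨u, huC, hvB, e3⟩
      intro u hu u' hu' hne hadj
      rw [Finset.mem_coe, Finset.mem_filter] at hu hu'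
      obtain ⟨v, hv, huv⟩ := hmem u hu.1
      obtain ⟨v', hv', huv'⟩ := hmem u' hu'.1
      have ht := hE.touch_of_adj (hfact v hv u huv).1 (hfact v' hv' u' huv').1 hadj
      rcases le_total (d u) (d u') with hd | hd
      · exact main u u' hu.1 hu'.1 hu.2 hne ht hd
      · exact main u' u hu'.1 hu.1 hu'.2 hne.symm ht.symm' hd
  -- non-terminal vertices
  have hNT : (UU.filter (fun u => ∃ v' ∈ J, u ∈ B v')).card ≤ J.card := by
    have hch : ∀ u, ∃ v', (∃ v' ∈ J, u ∈ B v') →
        v' ∈ J ∧ u ∈ B v' ∧ ∀ w ∈ J, u ∈ B w → d v' ≤ d w := by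
      intro u
      by_cases h : ∃ v' ∈ J, u ∈ B v'
      · obtain ⟨v', hv', hu'⟩ := h
        obtain ⟨w, hw, hwmin⟩ := (J.filter (fun w => u ∈ B w)).exists_min_image d
          ⟨v', Finset.mem_filter.2 ⟨hv', hu'⟩⟩
        rw [Finset.mem_filter] at hw
        exact ⟨w, fun _ => ⟨hw.1, hw.2, fun x hx hux => hwmin x (Finset.mem_filter.2 ⟨hx, hux⟩)⟩⟩
      · exact ⟨u, fun h' => absurd h' h⟩
    choose c hc using hch
    apply Finset.card_le_card_of_injOn c
    · intro u hu
      rw [Finset.mem_coe, Finset.mem_filter] at hu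
      exact (hc u hu.2).1
    · have main : ∀ u1 u2, u1 ∈ UU → u2 ∈ UU → (∃ v' ∈ J, u1 ∈ B v') → (∃ v' ∈ J, u2 ∈ B v') →
          u1 ≠ u2 → c u1 = c u2 → d u1 ≤ d u2 → False := by
        intro u1 u2 hu1 hu2 h1 h2 hne hcc hd
        obtain ⟨v1, hv1, huv1⟩ := hmem u1 hu1
        obtain ⟨v2, hv2, huv2⟩ := hmem u2 hu2
        obtain ⟨huC1, hvB1, -⟩ := hfact v1 hv1 u1 huv1
        obtain ⟨huC2, hvB2, hlt2⟩ := hfact v2 hv2 u2 huv2
        obtain ⟨hc1, hc2, hc3⟩ := hc u1 h1
        obtain ⟨hc4, hc5, -⟩ := hc u2 h2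
        rw [← hcc] at hc5
        have ht : Touch C B u1 u2 := ⟨c u1, hJC hc1, hc2, hc5⟩
        have hv12 : v1 ≠ v2 := by
          rintro rfl
          exact hIt v1 hv1 u1 (hUI _ _ huv1) u2 (hUI _ _ huv2) hne ht
        have e1 := hE.kf ht hd
        have e2 : Touch C B u1 v2 := ⟨u2, huC2, e1, hvB2⟩
        rcases le_or_gt (d u1) (d v2) with h | h
        · have e3 := hE.kf e2 h
          have e4 := hc3 v2 hv2 e3
          have e5 := hE.mono _ (hJC hc1) _ hc5
          omega
        · have e3 := hE.kf e2.symm' h.le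
          exact hJ v1 hv1 v2 hv2 hv12 ⟨u1, huC1, hvB1, e3⟩
      intro u1 hu1 u2 hu2 hcc
      rw [Finset.mem_coe, Finset.mem_filter] at hu1 hu2
      by_contra hne
      rcases le_total (d u1) (d u2) with hd | hd
      · exact main u1 u2 hu1.1 hu2.1 hu1.2 hu2.2 hne hcc hd
      · exact main u2 u1 hu2.1 hu1.1 hu2.2 hu1.2 (Ne.symm hne) hcc.symm hd
  calc ∑ v ∈ J, (I v).card ≤ ∑ v ∈ J, ((U v).card + 1) := Finset.sum_le_sum h1
    _ = UU.card + J.card := by rw [Finset.sum_add_distrib, hcard]; simp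
    _ ≤ a + 2 * J.card := by omega

end

/-- A graph with a `3/4`-general cover of tree-α-width at most `k` has independence degeneracy at
most `6 k²`. -/
theorem ideg_of_cover {V : Type} [Finite V] (G : SimpleGraph V) {m : ℕ} (C : Fin m → Set V)
    (hm : 1 ≤ m) (hcov : IsGeneralCover (1 - 1 / ((4 : ℕ) : ℝ)) C) (k : ℕ)
    (hw : ∀ i, treeAlpha (G.induce (C i)) ≤ k) : IdegLE G (6 * k ^ 2) := by
  classical
  haveI : Fintype V := Fintype.ofFinite V
  intro S hS
  by_contra hcon
  push Not at hcon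
  have hch : ∀ v, ∃ I : Finset V, v ∈ S → (∀ u ∈ I, u ∈ S ∧ G.Adj v u) ∧
      G.IsIndepSet (I : Set V) ∧ 6 * k ^ 2 < I.card := by
    intro v
    by_cases hv : v ∈ S
    · obtain ⟨I, h1, h2, h3⟩ := hcon v hv
      exact ⟨I, fun _ => ⟨h1, h2, h3⟩⟩
    · exact ⟨∅, fun h => absurd h hv⟩
  choose I hI using hch
  -- a maximum independent set
  have hne : {n | ∃ J : Finset V, (J : Set V) ⊆ S ∧ G.IsIndepSet (J : Set V) ∧
      J.card = n}.Nonempty := ⟨0, ∅, by simp, by simp, by simp⟩
  obtain ⟨J, hJS, hJind, hJmax⟩ : ∃ J : Finset V, (J : Set V) ⊆ S ∧ G.IsIndepSet (J : Set V) ∧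
      ∀ J' : Finset V, (J' : Set V) ⊆ S → G.IsIndepSet (J' : Set V) → J'.card ≤ J.card := by
    obtain ⟨J, hJ, hmax⟩ := (Finset.univ.filter (fun J : Finset V => (J : Set V) ⊆ S ∧
      G.IsIndepSet (J : Set V))).exists_max_image Finset.card ⟨∅, by simp⟩
    rw [Finset.mem_filter] at hJ
    exact ⟨J, hJ.2.1, hJ.2.2, fun J' h1 h2 =>
      hmax J' (Finset.mem_filter.2 ⟨Finset.mem_univ _, h1, h2⟩)⟩
  have hJpos : 1 ≤ J.card := by
    obtain ⟨v, hv⟩ := hS
    have := hJmax {v} (by simpa using hv) (by simp)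
    simpa using this
  -- the pairs
  set P : Finset (Σ _ : V, V) := J.sigma I with hP
  have hPcard : (6 * k ^ 2 + 1) * J.card ≤ P.card := by
    rw [hP, Finset.card_sigma]
    calc (6 * k ^ 2 + 1) * J.card = ∑ v ∈ J, (6 * k ^ 2 + 1) := by simp [mul_comm]
      _ ≤ ∑ v ∈ J, (I v).card := Finset.sum_le_sum (fun v hv => (hI v (hJS hv)).2.2)
  -- averaging
  obtain ⟨i, hi⟩ : ∃ i : Fin m, P.card ≤ 2 * (P.filter (fun p => p.1 ∈ C i ∧ p.2 ∈ C i)).card := by
    by_contra hno
    push Not at hno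
    have h1 : ∑ i : Fin m, 2 * (P.filter (fun p => p.1 ∈ C i ∧ p.2 ∈ C i)).card <
        ∑ i : Fin m, P.card := by
      apply Finset.sum_lt_sum_of_nonempty
      · exact ⟨⟨0, hm⟩, Finset.mem_univ _⟩
      · intro i _; exact hno i
    have h2 : ∑ i : Fin m, (P.filter (fun p => p.1 ∈ C i ∧ p.2 ∈ C i)).card =
        ∑ p ∈ P, (Finset.univ.filter (fun i : Fin m => p.1 ∈ C i ∧ p.2 ∈ C i)).card :=
      Finset.sum_card_bipartiteAbove_eq_sum_card_bipartiteBelow
        (fun (i : Fin m) (p : Σ _ : V, V) => p.1 ∈ C i ∧ p.2 ∈ C i)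
    have h3 : ∀ p ∈ P, m ≤ 2 * (Finset.univ.filter
        (fun i : Fin m => p.1 ∈ C i ∧ p.2 ∈ C i)).card := by
      intro p _
      have e1 := hcov p.1
      have e2 := hcov p.2
      have e3 : ∀ v, {i | v ∈ C i}.ncard = (Finset.univ.filter (fun i : Fin m => v ∈ C i)).card := by
        intro v
        rw [← Set.ncard_coe_finset]
        congr 1
        ext i
        simp
      rw [e3] at e1 e2
      have e4 : (Finset.univ.filter (fun i : Fin m => p.1 ∈ C i)).card +
          (Finset.univ.filter (fun i : Fin m => p.2 ∈ C i)).card ≤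
          (Finset.univ.filter (fun i : Fin m => p.1 ∈ C i ∧ p.2 ∈ C i)).card + m := by
        rw [Finset.filter_and, ← Finset.card_union_add_card_inter, add_comm]
        apply Nat.add_le_add_left
        calc _ ≤ (Finset.univ : Finset (Fin m)).card := Finset.card_le_univ _
          _ = m := by simp
      have e5 : ((m : ℕ) : ℝ) ≤
          2 * ((Finset.univ.filter (fun i : Fin m => p.1 ∈ C i ∧ p.2 ∈ C i)).card : ℝ) := by
        have e6 : ((Finset.univ.filter (fun i : Fin m => p.1 ∈ C i)).card : ℝ) +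
          ((Finset.univ.filter (fun i : Fin m => p.2 ∈ C i)).card : ℝ) ≤
          ((Finset.univ.filter (fun i : Fin m => p.1 ∈ C i ∧ p.2 ∈ C i)).card : ℝ) + m := by
          exact_mod_cast e4
        push_cast at e1 e2
        linarith
      exact_mod_cast e5
    have h4 : ∑ i : Fin m, P.card ≤
        ∑ i : Fin m, 2 * (P.filter (fun p => p.1 ∈ C i ∧ p.2 ∈ C i)).card := by
      rw [← Finset.mul_sum, h2, Finset.mul_sum]
      calc ∑ i : Fin m, P.card = ∑ p ∈ P, m := by simp [mul_comm]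
        _ ≤ _ := Finset.sum_le_sum h3
    omega
  obtain ⟨B, d, hE⟩ := exists_elim G (C i) k (hw i)
  -- the weights
  set I0 : V → Finset V := fun v => (I v).filter (fun u => u ∈ C i) with hI0
  set J0 : Finset V := J.filter (fun v => v ∈ C i) with hJ0
  have hPf : (P.filter (fun p => p.1 ∈ C i ∧ p.2 ∈ C i)).card = ∑ v ∈ J0, (I0 v).card := by
    rw [← Finset.card_sigma]
    congr 1
    ext ⟨v, u⟩
    simp only [hP, hJ0, hI0, Finset.mem_filter, Finset.mem_sigma]
    tauto
  obtain ⟨J1, hJ1sub, hJ1t, hJ1w⟩ := hE.select J0 (by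
      intro v hv
      exact (Finset.mem_filter.1 hv).2) (by
      intro x hx y hy hxy
      exact hJind (Finset.mem_filter.1 hx).1 (Finset.mem_filter.1 hy).1 hxy)
    (fun v => (I0 v).card)
  have hJ1 : ∀ v ∈ J1, v ∈ J ∧ v ∈ C i := fun v hv => Finset.mem_filter.1 (hJ1sub hv)
  have hsel : ∀ v, ∃ I1 : Finset V, v ∈ J1 → I1 ⊆ I0 v ∧
      (∀ u ∈ I1, ∀ w ∈ I1, u ≠ w → ¬ Touch (C i) B u w) ∧ (I0 v).card ≤ k * I1.card := by
    intro v
    by_cases hv : v ∈ J1
    · obtain ⟨I1, h1, h2, h3⟩ := hE.select (I0 v) (by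
        intro u hu
        exact (Finset.mem_filter.1 hu).2) (by
        intro x hx y hy hxy
        exact (hI v (hJS (hJ1 v hv).1)).2.1 (Finset.mem_filter.1 hx).1
          (Finset.mem_filter.1 hy).1 hxy) (fun _ => 1)
      refine ⟨I1, fun _ => ⟨h1, h2, ?_⟩⟩
      simpa using h3
    · exact ⟨∅, fun h => absurd h hv⟩
  choose I1 hI1 using hsel
  have hI1' : ∀ v ∈ J1, ∀ u ∈ I1 v, u ∈ I v ∧ u ∈ C i :=
    fun v hv u hu => Finset.mem_filter.1 ((hI1 v hv).1 hu)
  have hcount := hE.count (J := J1) (fun v hv => (hJ1 v hv).2) hJ1t I1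
    (fun v hv u hu => ⟨(hI1' v hv u hu).2,
      ((hI v (hJS (hJ1 v hv).1)).1 u (hI1' v hv u hu).1).2⟩)
    (fun v hv => (hI1 v hv).2.1) J.card (by
      intro T hT hTind
      apply hJmax T _ hTind
      intro u hu
      obtain ⟨v, hv, huv⟩ := hT u hu
      exact ((hI v (hJS (hJ1 v hv).1)).1 u (hI1' v hv u huv).1).1)
  have hJ1le : J1.card ≤ J.card := Finset.card_le_card (fun v hv => (hJ1 v hv).1)
  have hfin : P.card ≤ 6 * k ^ 2 * J.card := by
    calc P.card ≤ 2 * ∑ v ∈ J0, (I0 v).card := by rw [← hPf]; exact hi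
      _ ≤ 2 * (k * ∑ v ∈ J1, (I0 v).card) := Nat.mul_le_mul_left 2 hJ1w
      _ ≤ 2 * (k * ∑ v ∈ J1, k * (I1 v).card) := by
          apply Nat.mul_le_mul_left
          apply Nat.mul_le_mul_left
          exact Finset.sum_le_sum (fun v hv => (hI1 v hv).2.2)
      _ = 2 * k ^ 2 * ∑ v ∈ J1, (I1 v).card := by rw [← Finset.mul_sum]; ring
      _ ≤ 2 * k ^ 2 * (J.card + 2 * J1.card) := Nat.mul_le_mul_left _ hcount
      _ ≤ 2 * k ^ 2 * (J.card + 2 * J.card) := by
          apply Nat.mul_le_mul_left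
          omega
      _ = 6 * k ^ 2 * J.card := by ring
  have : (6 * k ^ 2 + 1) * J.card ≤ 6 * k ^ 2 * J.card := hPcard.trans hfin
  have h2 : (6 * k ^ 2 + 1) * J.card = 6 * k ^ 2 * J.card + J.card := by ring
  omega

/-- Every fractionally tree-α-fragile class has bounded independence degeneracy: the bound is
`6 f(4)²`. -/
theorem result : ∀ (𝒢 : ∀ V : Type, SimpleGraph V → Prop) (f : ℕ → ℕ), IsFragileWith 𝒢 f →
    ∀ (V : Type) [Finite V] (G : SimpleGraph V), 𝒢 V G → IdegLE G (6 * f 4 ^ 2) := by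
  intro 𝒢 f hf V _ G hG
  obtain ⟨m, C, hm, hC, hw⟩ := hf 4 (by norm_num) V G hG
  exact ideg_of_cover G C hm hC (f 4) hw

end Pool.Agent.Results.MP_1b53c2_co.FragileIdeg
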